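import Mathlib

/-!
The ring of piecewise polynomial families indexed by the rationals.
-/

open Polynomial

namespace Pool.Agent.P.MP_b84a00_al

/-- `f` is constant off `F` and glues continuously. -/
def Adapted (F : Finset ℚ) (f : ℚ → ℚ[X]) : Prop :=
  (∀ i, i ∉ F → ∃ c, f i = C c) ∧
    ∀ i j, i < j → (∀ k ∈ F, ¬ (i < k ∧ k < j)) → (f i).eval 1 = (f j).eval 0

lemma Adapted.mono {F F' : Finset ℚ} {f : ℚ → ℚ[X]} (h : Adapted F f) (hF : F ⊆ F') :
    Adapted F' f :=
  ⟨fun i hi => h.1 i (fun h' => hi (hF h')),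
    fun i j hij hk => h.2 i j hij (fun k hkF => hk k (hF hkF))⟩

lemma Adapted.add {F : Finset ℚ} {f g : ℚ → ℚ[X]} (hf : Adapted F f) (hg : Adapted F g) :
    Adapted F (f + g) := by
  refine ⟨fun i hi => ?_, fun i j hij hk => ?_⟩
  · obtain ⟨a, ha⟩ := hf.1 i hi
    obtain ⟨b, hb⟩ := hg.1 i hi
    exact ⟨a + b, by simp [ha, hb]⟩
  · simp [hf.2 i j hij hk, hg.2 i j hij hk]

lemma Adapted.mul {F : Finset ℚ} {f g : ℚ → ℚ[X]} (hf : Adapted F f) (hg : Adapted F g) :
    Adapted F (f * g) := by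
  refine ⟨fun i hi => ?_, fun i j hij hk => ?_⟩
  · obtain ⟨a, ha⟩ := hf.1 i hi
    obtain ⟨b, hb⟩ := hg.1 i hi
    exact ⟨a * b, by simp [ha, hb]⟩
  · simp [hf.2 i j hij hk, hg.2 i j hij hk]

lemma Adapted.neg {F : Finset ℚ} {f : ℚ → ℚ[X]} (hf : Adapted F f) : Adapted F (-f) := by
  refine ⟨fun i hi => ?_, fun i j hij hk => ?_⟩
  · obtain ⟨a, ha⟩ := hf.1 i hi
    exact ⟨-a, by simp [ha]⟩
  · simp [hf.2 i j hij hk]

lemma adapted_const (F : Finset ℚ) (c : ℚ) : Adapted F (fun _ => C c) :=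
  ⟨fun _ _ => ⟨c, rfl⟩, fun _ _ _ _ => by simp⟩

/-- The ring of piecewise polynomial families. -/
def PW : Subring (ℚ → ℚ[X]) where
  carrier := {f | (Set.range f).Finite ∧ ∃ F, Adapted F f}
  mul_mem' := by
    rintro f g ⟨hf, F, hF⟩ ⟨hg, G, hG⟩
    refine ⟨(hf.image2 (· * ·) hg).subset ?_, F ∪ G,
      (hF.mono Finset.subset_union_left).mul (hG.mono Finset.subset_union_right)⟩
    rintro _ ⟨i, rfl⟩
    exact ⟨f i, ⟨i, rfl⟩, g i, ⟨i, rfl⟩, rfl⟩
  add_mem' := by
    rintro f g ⟨hf, F, hF⟩ ⟨hg, G, hG⟩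
    refine ⟨(hf.image2 (· + ·) hg).subset ?_, F ∪ G,
      (hF.mono Finset.subset_union_left).add (hG.mono Finset.subset_union_right)⟩
    rintro _ ⟨i, rfl⟩
    exact ⟨f i, ⟨i, rfl⟩, g i, ⟨i, rfl⟩, rfl⟩
  one_mem' := ⟨Set.finite_range_const, ∅, adapted_const ∅ 1⟩
  zero_mem' := ⟨Set.finite_range_const, ∅, by simpa using! adapted_const ∅ 0⟩
  neg_mem' := by
    rintro f ⟨hf, F, hF⟩
    refine ⟨(hf.image (fun x => -x)).subset ?_, F, hF.neg⟩
    rintro _ ⟨i, rfl⟩
    exact ⟨f i, ⟨i, rfl⟩, rfl⟩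

lemma const_mem (c : ℚ) : (fun _ => C c : ℚ → ℚ[X]) ∈ PW :=
  ⟨Set.finite_range_const, ∅, adapted_const ∅ c⟩

/-- The family that is `g` at `k` and constant on both sides. -/
noncomputable def E (k : ℚ) (g : ℚ[X]) : ℚ → ℚ[X] :=
  fun i => if i < k then C (g.eval 0) else if i = k then g else C (g.eval 1)

lemma E_lt {k i : ℚ} (g : ℚ[X]) (h : i < k) : E k g i = C (g.eval 0) := by simp [E, h]

lemma E_self (k : ℚ) (g : ℚ[X]) : E k g k = g := by simp [E]

lemma E_gt {k i : ℚ} (g : ℚ[X]) (h : k < i) : E k g i = C (g.eval 1) := by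
  simp [E, h.ne', not_lt.2 h.le]

lemma E_mem (k : ℚ) (g : ℚ[X]) : E k g ∈ PW := by
  refine ⟨(Set.toFinite {C (g.eval 0), g, C (g.eval 1)}).subset ?_, {k}, ?_, ?_⟩
  · rintro _ ⟨i, rfl⟩
    rcases lt_trichotomy i k with h | h | h
    · simp [E_lt g h]
    · simp [h, E_self]
    · simp [E_gt g h]
  · intro i hi
    rcases lt_trichotomy i k with h | h | h
    · exact ⟨_, E_lt g h⟩
    · simp [h] at hi
    · exact ⟨_, E_gt g h⟩
  · intro i j hij hk
    have hk' : ¬ (i < k ∧ k < j) := hk k (by simp)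
    rcases lt_trichotomy i k with h | h | h
    · have hjk : j ≤ k := not_lt.1 (fun h' => hk' ⟨h, h'⟩)
      rcases hjk.lt_or_eq with h' | h'
      · simp [E_lt g h, E_lt g h']
      · simp [E_lt g h, h', E_self]
    · subst h
      simp [E_self, E_gt g hij]
    · simp [E_gt g h, E_gt g (h.trans hij)]

/-- The family stopped at `k`. -/
noncomputable def freeze (k : ℚ) (a : ℚ → ℚ[X]) : ℚ → ℚ[X] :=
  fun i => if i < k then a i else C ((a k).eval 0)

lemma freeze_adapted {F : Finset ℚ} {k : ℚ} {a : ℚ → ℚ[X]} (ha : Adapted (insert k F) a) :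
    Adapted F (freeze k a) := by
  refine ⟨fun i hi => ?_, fun i j hij hF => ?_⟩
  · by_cases h : i < k
    · obtain ⟨c, hc⟩ := ha.1 i (by simp [h.ne, hi])
      exact ⟨c, by simp [freeze, h, hc]⟩
    · exact ⟨(a k).eval 0, by simp [freeze, h]⟩
  · by_cases hj : j < k
    · have hi : i < k := hij.trans hj
      simp only [freeze, hi, hj, if_true]
      refine ha.2 i j hij (fun x hx => ?_)
      rcases Finset.mem_insert.1 hx with rfl | hx
      · exact fun h => absurd h.2 (not_lt.2 hj.le)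
      · exact hF x hx
    · by_cases hi : i < k
      · simp only [freeze, hi, hj, if_true, if_false, eval_C]
        refine ha.2 i k hi (fun x hx => ?_)
        rcases Finset.mem_insert.1 hx with rfl | hx
        · exact fun h => lt_irrefl _ h.2
        · exact fun h => hF x hx ⟨h.1, h.2.trans_le (not_lt.1 hj)⟩
      · simp [freeze, hi, hj]

lemma eq_E {F : Finset ℚ} {k : ℚ} {a : ℚ → ℚ[X]} (ha : Adapted (insert k F) a)
    (hk : ∀ x ∈ F, x < k) {i : ℚ} (hi : ∀ x ∈ F, x < i) : a i = E k (a k) i := by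
  have hiF : i ∉ F := fun h => lt_irrefl _ (hi i h)
  rcases lt_trichotomy i k with h | h | h
  · obtain ⟨c, hc⟩ := ha.1 i (by simp [h.ne, hiF])
    have := ha.2 i k h (fun x hx => by
      rcases Finset.mem_insert.1 hx with rfl | hx
      · exact fun h => lt_irrefl _ h.2
      · exact fun h' => lt_asymm h'.1 (hi x hx))
    rw [E_lt _ h, ← this, hc, eval_C]
  · rw [h, E_self]
  · obtain ⟨c, hc⟩ := ha.1 i (by simp [h.ne', hiF])
    have := ha.2 k i h (fun x hx => by
      rcases Finset.mem_insert.1 hx with rfl | hx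
      · exact fun h => lt_irrefl _ h.1
      · exact fun h' => lt_asymm h'.1 (hk x hx))
    rw [E_gt _ h, this, hc, eval_C]

lemma const_of_adapted_empty {a : ℚ → ℚ[X]} (ha : Adapted ∅ a) (i : ℚ) :
    a i = C ((a 0).eval 0) := by
  obtain ⟨c, hc⟩ := ha.1 i (by simp)
  obtain ⟨c0, hc0⟩ := ha.1 0 (by simp)
  rcases lt_trichotomy i 0 with h | h | h
  · have := ha.2 i 0 h (by simp)
    rw [← this, hc, eval_C]
  · rw [h, hc0, eval_C]
  · have := ha.2 0 i h (by simp)
    rw [hc, hc0, eval_C, eval_C] at this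
    rw [hc, hc0, eval_C, this]

/-- Gluing of local Bezout relations. -/
lemma glue (F : Finset ℚ) : ∀ a b c : ℚ → ℚ[X], Adapted F a → Adapted F b → Adapted F c →
    (∀ i, ∃ l m, c i = l * a i + m * b i) → ∃ l ∈ PW, ∃ m ∈ PW, c = l * a + m * b := by
  induction F using Finset.induction_on_max with
  | empty =>
    intro a b c ha hb hc h
    obtain ⟨l, m, hlm⟩ := h 0
    refine ⟨_, const_mem (l.eval 0), _, const_mem (m.eval 0), funext fun i => ?_⟩
    simp only [Pi.add_apply, Pi.mul_apply]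
    rw [const_of_adapted_empty ha i, const_of_adapted_empty hb i, const_of_adapted_empty hc i,
      hlm]
    simp
  | insert k F hk ih =>
    intro a b c ha hb hc h
    obtain ⟨s, hsk, hs⟩ : ∃ s, s < k ∧ ∀ x ∈ F, x < s := by
      rcases F.eq_empty_or_nonempty with rfl | hne
      · exact ⟨k - 1, by linarith, by simp⟩
      · obtain ⟨s, h1, h2⟩ := exists_between (hk _ (F.max'_mem hne))
        exact ⟨s, h2, fun x hx => (F.le_max' x hx).trans_lt h1⟩
    obtain ⟨l', hl', m', hm', h'⟩ := ih (freeze k a) (freeze k b) (freeze k c)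
      (freeze_adapted ha) (freeze_adapted hb) (freeze_adapted hc) (fun i => by
        by_cases hi : i < k
        · simpa [freeze, hi] using h i
        · obtain ⟨l, m, hlm⟩ := h k
          exact ⟨C (l.eval 0), C (m.eval 0), by simp [freeze, hi, hlm]⟩)
    obtain ⟨l, m, hlm⟩ := h k
    refine ⟨(1 - E s X) * l' + E s X * E k l,
      add_mem (mul_mem (sub_mem (one_mem _) (E_mem _ _)) hl') (mul_mem (E_mem _ _) (E_mem _ _)),
      (1 - E s X) * m' + E s X * E k m,
      add_mem (mul_mem (sub_mem (one_mem _) (E_mem _ _)) hm') (mul_mem (E_mem _ _) (E_mem _ _)),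
      funext fun i => ?_⟩
    have P1 : i < k → c i = l' i * a i + m' i * b i := by
      intro hi
      have := congrFun h' i
      simpa [freeze, hi] using this
    have P2 : s ≤ i → c i = E k l i * a i + E k m i * b i := by
      intro hi
      have hi' : ∀ x ∈ F, x < i := fun x hx => (hs x hx).trans_le hi
      rw [eq_E ha hk hi', eq_E hb hk hi', eq_E hc hk hi', hlm]
      rcases lt_trichotomy i k with h | h | h
      · simp [E_lt _ h]
      · simp [h, E_self]
      · simp [E_gt _ h]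
    simp only [Pi.add_apply, Pi.mul_apply, Pi.sub_apply, Pi.one_apply]
    rcases lt_trichotomy i s with h | h | h
    · rw [E_lt _ h, P1 (h.trans hsk)]
      simp
    · have h1 := P1 (h ▸ hsk)
      have h2 := P2 h.ge
      linear_combination (1 - E s X i) * h1 + E s X i * h2
    · rw [E_gt _ h, P2 h.le]
      simp

lemma glue_mem {a b c : ℚ → ℚ[X]} (ha : a ∈ PW) (hb : b ∈ PW) (hc : c ∈ PW)
    (h : ∀ i, ∃ l m, c i = l * a i + m * b i) : ∃ l ∈ PW, ∃ m ∈ PW, c = l * a + m * b := by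
  obtain ⟨-, A, hA⟩ := ha
  obtain ⟨-, B, hB⟩ := hb
  obtain ⟨-, D, hD⟩ := hc
  exact glue (A ∪ B ∪ D) a b c
    (hA.mono (Finset.subset_union_left.trans Finset.subset_union_left))
    (hB.mono (Finset.subset_union_right.trans Finset.subset_union_left))
    (hD.mono Finset.subset_union_right) h

/-- Units are constant. -/
lemma unit_const {f : ℚ → ℚ[X]} (hf : f ∈ PW) (hu : ∀ i, IsUnit (f i)) (i j : ℚ) (hij : i < j) :
    f i = f j := by
  classical
  obtain ⟨-, F, hF⟩ := hf
  have key : ∀ n : ℕ, ∀ i j : ℚ, i < j → (F.filter (fun k => i < k ∧ k < j)).card = n →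
      f i = f j := by
    intro n
    induction n using Nat.strong_induction_on with
    | _ n ih =>
      intro i j hij hn
      by_cases h : ∀ k ∈ F, ¬ (i < k ∧ k < j)
      · have := hF.2 i j hij h
        obtain ⟨r, -, hr⟩ := Polynomial.isUnit_iff.1 (hu i)
        obtain ⟨r', -, hr'⟩ := Polynomial.isUnit_iff.1 (hu j)
        rw [← hr, ← hr', eval_C, eval_C] at this
        rw [← hr, ← hr', this]
      · push Not at h
        obtain ⟨k, hkF, hik, hkj⟩ := h
        have h1 : (F.filter (fun x => i < x ∧ x < k)).card < n := by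
          rw [← hn]
          refine Finset.card_lt_card ⟨fun x hx => ?_, fun hsub => ?_⟩
          · simp only [Finset.mem_filter] at hx ⊢
            exact ⟨hx.1, hx.2.1, hx.2.2.trans hkj⟩
          · have := hsub (Finset.mem_filter.2 ⟨hkF, hik, hkj⟩)
            simp at this
        have h2 : (F.filter (fun x => k < x ∧ x < j)).card < n := by
          rw [← hn]
          refine Finset.card_lt_card ⟨fun x hx => ?_, fun hsub => ?_⟩
          · simp only [Finset.mem_filter] at hx ⊢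
            exact ⟨hx.1, hik.trans hx.2.1, hx.2.2⟩
          · have := hsub (Finset.mem_filter.2 ⟨hkF, hik, hkj⟩)
            simp at this
        exact (ih _ h1 i k hik rfl).trans (ih _ h2 k j hkj rfl)
  exact key _ i j hij rfl

end Pool.Agent.P.MP_b84a00_al
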