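import Pool.Agent.P.MP_b84a00_al.Schur
import Pool.Agent.P.MP_b84a00_al.Piecewise

/-!
The group: a pure subring of the product of the localizations of the integers.
-/

open Polynomial Filter WithZero

namespace Pool.Agent.P.MP_b84a00_al

section

variable (ι : Nat.Primes → ℚ) (t : Nat.Primes → ℤ)

/-- Evaluation of a family at the point attached to each prime. -/
noncomputable def ev (f : ℚ → ℚ[X]) : Nat.Primes → ℚ := fun p => (f (ι p)).eval (t p : ℚ)

lemma ev_add (f g : ℚ → ℚ[X]) (p : Nat.Primes) : ev ι t (f + g) p = ev ι t f p + ev ι t g p := by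
  simp [ev]

lemma ev_mul (f g : ℚ → ℚ[X]) (p : Nat.Primes) : ev ι t (f * g) p = ev ι t f p * ev ι t g p := by
  simp [ev]

lemma ev_sub (f g : ℚ → ℚ[X]) (p : Nat.Primes) : ev ι t (f - g) p = ev ι t f p - ev ι t g p := by
  simp [ev]

lemma ae_ev_le_one {f : ℚ → ℚ[X]} (hf : f ∈ PW) : ∀ᶠ p in cofinite, val p (ev ι t f p) ≤ 1 := by
  have h := (eventually_all_finite hf.1).2 (fun g _ => ae_val_eval_le_one g)
  filter_upwards [h] with p hp
  exact hp _ ⟨ι p, rfl⟩ _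

/-- The ring whose additive group is the counterexample. -/
def GR : Subring (Nat.Primes → ℚ) where
  carrier := {x | (∀ p, val p (x p) ≤ 1) ∧ ∃ f ∈ PW, ∀ᶠ p in cofinite, x p = ev ι t f p}
  mul_mem' := by
    rintro x y ⟨hx, f, hf, hxf⟩ ⟨hy, g, hg, hyg⟩
    refine ⟨fun p => ?_, f * g, mul_mem hf hg, ?_⟩
    · rw [Pi.mul_apply, map_mul]
      exact mul_le_one' (hx p) (hy p)
    · filter_upwards [hxf, hyg] with p h1 h2
      rw [Pi.mul_apply, h1, h2, ev_mul]
  add_mem' := by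
    rintro x y ⟨hx, f, hf, hxf⟩ ⟨hy, g, hg, hyg⟩
    refine ⟨fun p => (val p).map_add_le (hx p) (hy p), f + g, add_mem hf hg, ?_⟩
    filter_upwards [hxf, hyg] with p h1 h2
    rw [Pi.add_apply, h1, h2, ev_add]
  one_mem' := ⟨fun p => by simp, 1, one_mem _, Eventually.of_forall fun p => by simp [ev]⟩
  zero_mem' := ⟨fun p => by simp, 0, zero_mem _, Eventually.of_forall fun p => by simp [ev]⟩
  neg_mem' := by
    rintro x ⟨hx, f, hf, hxf⟩
    refine ⟨fun p => by simpa using hx p, -f, neg_mem hf, ?_⟩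
    filter_upwards [hxf] with p h1
    simp [h1, ev]

lemma div_iff (x : GR ι t) (p : Nat.Primes) (k : ℕ) :
    (∃ y : GR ι t, x = p.1 ^ k • y) ↔ val p (x.1 p) ≤ exp (-(k : ℤ)) := by
  constructor
  · rintro ⟨y, rfl⟩
    have : (p.1 ^ k • y).1 p = (p.1 : ℚ) ^ k * y.1 p := by simp
    rw [this, map_mul, val_pow_self]
    exact mul_le_of_le_one_right' (y.2.1 p)
  · intro h
    have hp0 : ((p.1 : ℚ) ^ k) ≠ 0 := pow_ne_zero _ (by exact_mod_cast p.2.ne_zero)
    obtain ⟨hx, f, hf, hxf⟩ := x.2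
    refine ⟨⟨fun q => ((p.1 : ℚ) ^ k)⁻¹ * x.1 q, fun q => ?_,
      (fun _ => C (((p.1 : ℚ) ^ k)⁻¹)) * f, mul_mem (const_mem _) hf, ?_⟩, ?_⟩
    · rw [map_mul, map_inv₀]
      by_cases hq : q = p
      · subst hq
        rw [val_pow_self, inv_mul_le_one₀ (by simp)]
        exact h
      · rw [map_pow, val_other p q hq]
        simpa using hx q
    · filter_upwards [hxf] with q hq
      simp [hq, ev]
    · ext q
      simp [hp0]

lemma eq_zero_of_forall {v : WithZero (Multiplicative ℤ)} (h : ∀ k : ℕ, v ≤ exp (-(k : ℤ))) :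
    v = 0 := by
  by_contra h0
  have := h ((log v).natAbs + 1)
  rw [← exp_log h0, exp_le_exp, log_exp] at this
  push_cast at this
  have h2 := neg_abs_le (log v)
  omega

lemma le_of_forall {v w : WithZero (Multiplicative ℤ)} (hw : w ≤ 1)
    (h : ∀ k : ℕ, w ≤ exp (-(k : ℤ)) → v ≤ exp (-(k : ℤ))) : v ≤ w := by
  by_cases h0 : w = 0
  · rw [eq_zero_of_forall (v := v) (fun k => h k (by simp [h0]))]
    exact zero_le
  · have h1 : log w ≤ 0 := by
      rw [← exp_log h0, ← exp_zero, exp_le_exp] at hw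
      exact hw
    have h2 : (-(((-log w).toNat : ℕ) : ℤ)) = log w := by omega
    have := h (-log w).toNat (by rw [h2, exp_log h0])
    rwa [h2, exp_log h0] at this

/-- Every additive endomorphism is a multiplication. -/
lemma end_mul (θ : GR ι t →+ GR ι t) (x : GR ι t) (p : Nat.Primes) :
    (θ x).1 p = (θ 1).1 p * x.1 p := by
  have key : ∀ z : GR ι t, z.1 p = 0 → (θ z).1 p = 0 := by
    intro z hz
    rw [← (val p).zero_iff]
    refine eq_zero_of_forall (fun k => ?_)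
    obtain ⟨y, hy⟩ := (div_iff ι t z p k).2 (by simp [hz])
    exact (div_iff ι t (θ z) p k).1 ⟨θ y, by rw [hy, map_nsmul]⟩
  set r : ℚ := x.1 p with hr
  have h1 := key ((r.den : ℤ) • x - r.num • (1 : GR ι t)) (by
    have : ((r.den : ℤ) • x - r.num • (1 : GR ι t)).1 p = (r.den : ℚ) * r - r.num := by
      simp [hr]
    rw [this, Rat.den_mul_eq_num, sub_self])
  rw [map_sub, map_zsmul, map_zsmul] at h1
  have h2 : ((r.den : ℤ) • θ x - r.num • θ 1).1 p
      = (r.den : ℚ) * (θ x).1 p - r.num * (θ 1).1 p := by simp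
  rw [h2, ← Rat.den_mul_eq_num] at h1
  have hd : (r.den : ℚ) ≠ 0 := by exact_mod_cast r.den_ne_zero
  apply mul_left_cancel₀ hd
  linear_combination h1

lemma local_comb (p : Nat.Primes) (a b c : ℚ) (h : val p c ≤ max (val p a) (val p b)) :
    ∃ l m : ℚ, val p l ≤ 1 ∧ val p m ≤ 1 ∧ c = l * a + m * b := by
  have aux : ∀ a : ℚ, val p c ≤ val p a → ∃ l : ℚ, val p l ≤ 1 ∧ c = l * a := by
    intro a ha
    by_cases h0 : a = 0
    · rw [h0, map_zero, le_zero_iff, (val p).zero_iff] at ha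
      exact ⟨0, by simp, by simp [ha]⟩
    · refine ⟨c / a, ?_, by field_simp⟩
      rw [map_div₀, div_le_one₀ (zero_lt_iff.2 ((val p).ne_zero_iff.2 h0))]
      exact ha
  rcases le_max_iff.1 h with h | h
  · obtain ⟨l, hl, hc⟩ := aux a h
    exact ⟨l, 0, hl, by simp, by simp [hc]⟩
  · obtain ⟨l, hl, hc⟩ := aux b h
    exact ⟨0, l, by simp, hl, by simp [hc]⟩

variable {ι t}
variable (hgen : ∀ (i : ℚ) (h d : ℚ[X]), ¬ IsUnit h → d ≠ 0 →
  ∃ᶠ p in cofinite, ι p = i ∧ val p (h.eval (t p : ℚ)) < 1 ∧ d.eval (t p : ℚ) ≠ 0)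
include hgen

lemma eq_of_ae {f g : ℚ → ℚ[X]} (h : ∀ᶠ p in cofinite, ev ι t f p = ev ι t g p) : f = g := by
  funext i
  by_contra hne
  obtain ⟨p, ⟨h1, -, h2⟩, h3⟩ :=
    ((hgen i 0 (f i - g i) not_isUnit_zero (sub_ne_zero.2 hne)).and_eventually h).exists
  apply h2
  simp only [ev, h1] at h3
  simp [h3]

lemma poly_comb {fa fb fc : ℚ → ℚ[X]}
    (h : ∀ᶠ p in cofinite, val p (ev ι t fc p) ≤ max (val p (ev ι t fa p)) (val p (ev ι t fb p)))
    (i : ℚ) : ∃ l m, fc i = l * fa i + m * fb i := by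
  classical
  by_contra hcon
  set g := EuclideanDomain.gcd (fa i) (fb i) with hg
  have hnd : ¬ g ∣ fc i := by
    rintro ⟨w, hw⟩
    apply hcon
    refine ⟨EuclideanDomain.gcdA (fa i) (fb i) * w, EuclideanDomain.gcdB (fa i) (fb i) * w, ?_⟩
    rw [hw, hg, EuclideanDomain.gcd_eq_gcd_ab]
    ring
  have hc0 : fc i ≠ 0 := fun h0 => hnd (h0 ▸ dvd_zero g)
  set d := EuclideanDomain.gcd g (fc i) with hd
  have hd0 : d ≠ 0 := fun h0 => hc0 (EuclideanDomain.gcd_eq_zero_iff.1 h0).2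
  obtain ⟨g', hg'⟩ : d ∣ g := EuclideanDomain.gcd_dvd_left _ _
  obtain ⟨y', hy'⟩ : d ∣ fc i := EuclideanDomain.gcd_dvd_right _ _
  obtain ⟨a', ha'⟩ : g ∣ fa i := EuclideanDomain.gcd_dvd_left _ _
  obtain ⟨b', hb'⟩ : g ∣ fb i := EuclideanDomain.gcd_dvd_right _ _
  obtain ⟨A, B, hAB⟩ : ∃ A B, g' * A + y' * B = 1 := by
    refine ⟨EuclideanDomain.gcdA g (fc i), EuclideanDomain.gcdB g (fc i), ?_⟩
    apply mul_left_cancel₀ hd0
    have := EuclideanDomain.gcd_eq_gcd_ab g (fc i)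
    rw [← hd] at this
    linear_combination -this - EuclideanDomain.gcdA g (fc i) * hg'
      - EuclideanDomain.gcdB g (fc i) * hy'
  have hu : ¬ IsUnit g' := by
    intro hu
    apply hnd
    rw [hy']
    refine Dvd.dvd.mul_right ?_ _
    rw [hg']
    exact (hu.mul_right_dvd).2 dvd_rfl
  obtain ⟨p, ⟨h1, h2, h3⟩, h4, hA, hB, ha, hb⟩ :=
    ((hgen i g' d hu hd0).and_eventually (h.and ((ae_val_eval_le_one A).and
      ((ae_val_eval_le_one B).and ((ae_val_eval_le_one a').and (ae_val_eval_le_one b')))))).exists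
  simp only [ev, h1] at h4
  have e1 : val p (y'.eval (t p : ℚ) * B.eval (t p : ℚ)) = 1 := by
    have h5 : y'.eval (t p : ℚ) * B.eval (t p : ℚ)
        = 1 - g'.eval (t p : ℚ) * A.eval (t p : ℚ) := by
      have := congrArg (eval (t p : ℚ)) hAB
      simp only [eval_add, eval_mul, eval_one] at this
      linear_combination this
    rw [h5]
    apply (val p).map_one_sub_of_lt
    rw [map_mul]
    exact lt_of_le_of_lt (mul_le_of_le_one_right' (hA _)) h2
  have e2 : 1 ≤ val p (y'.eval (t p : ℚ)) := by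
    rw [← e1, map_mul]
    exact mul_le_of_le_one_right' (hB _)
  have hdpos : 0 < val p (d.eval (t p : ℚ)) := zero_lt_iff.2 ((val p).ne_zero_iff.2 h3)
  have e3 : val p (d.eval (t p : ℚ)) ≤ val p ((fc i).eval (t p : ℚ)) := by
    rw [hy', eval_mul, map_mul]
    exact le_mul_of_one_le_right' e2
  have e4 : val p (g.eval (t p : ℚ)) < val p (d.eval (t p : ℚ)) := by
    rw [hg', eval_mul, map_mul]
    exact mul_lt_of_lt_one_right hdpos h2
  have e5 : val p ((fa i).eval (t p : ℚ)) ≤ val p (g.eval (t p : ℚ)) := by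
    rw [ha', eval_mul, map_mul]
    exact mul_le_of_le_one_right' (ha _)
  have e6 : val p ((fb i).eval (t p : ℚ)) ≤ val p (g.eval (t p : ℚ)) := by
    rw [hb', eval_mul, map_mul]
    exact mul_le_of_le_one_right' (hb _)
  exact absurd (e3.trans (h4.trans (max_le e5 e6))) (not_le.2 e4)

lemma comb (a b c : GR ι t) (h : ∀ p, val p (c.1 p) ≤ max (val p (a.1 p)) (val p (b.1 p))) :
    ∃ l m : GR ι t, c = l * a + m * b := by
  obtain ⟨-, fa, hfa, ha⟩ := a.2
  obtain ⟨-, fb, hfb, hb⟩ := b.2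
  obtain ⟨-, fc, hfc, hc⟩ := c.2
  obtain ⟨L, hL, M, hM, hLM⟩ := glue_mem hfa hfb hfc (poly_comb hgen (by
    filter_upwards [ha, hb, hc] with p h1 h2 h3
    rw [← h1, ← h2, ← h3]
    exact h p))
  have hgood : ∀ᶠ p in cofinite, val p (ev ι t L p) ≤ 1 ∧ val p (ev ι t M p) ≤ 1 ∧
      c.1 p = ev ι t L p * a.1 p + ev ι t M p * b.1 p := by
    filter_upwards [ha, hb, hc, ae_ev_le_one ι t hL, ae_ev_le_one ι t hM] with p h1 h2 h3 h4 h5
    refine ⟨h4, h5, ?_⟩
    rw [h1, h2, h3, hLM, ev_add, ev_mul, ev_mul]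
  have hex : ∀ p, ∃ l m : ℚ, val p l ≤ 1 ∧ val p m ≤ 1 ∧ c.1 p = l * a.1 p + m * b.1 p ∧
      ((val p (ev ι t L p) ≤ 1 ∧ val p (ev ι t M p) ≤ 1 ∧
        c.1 p = ev ι t L p * a.1 p + ev ι t M p * b.1 p) → l = ev ι t L p ∧ m = ev ι t M p) := by
    intro p
    by_cases hp : val p (ev ι t L p) ≤ 1 ∧ val p (ev ι t M p) ≤ 1 ∧
        c.1 p = ev ι t L p * a.1 p + ev ι t M p * b.1 p
    · exact ⟨_, _, hp.1, hp.2.1, hp.2.2, fun _ => ⟨rfl, rfl⟩⟩
    · obtain ⟨l, m, h1, h2, h3⟩ := local_comb p _ _ _ (h p)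
      exact ⟨l, m, h1, h2, h3, fun h' => absurd h' hp⟩
  choose l m hl hm hc' hlm using hex
  refine ⟨⟨l, hl, L, hL, hgood.mono fun p hp => (hlm p hp).1⟩,
    ⟨m, hm, M, hM, hgood.mono fun p hp => (hlm p hp).2⟩, ?_⟩
  ext p
  exact hc' p

lemma not_assoc : ∃ x y : GR ι t, (∀ p, val p (x.1 p) = val p (y.1 p)) ∧
    ∀ θ : GR ι t ≃+ GR ι t, θ x ≠ y := by
  have hτ : ∀ k p, val p (ev ι t (E k X) p) ≤ 1 := by
    intro k p
    rcases lt_trichotomy (ι p) k with h | h | h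
    · simp [ev, E_lt _ h]
    · simp [ev, h, E_self, val_int_le]
    · simp [ev, E_gt _ h]
  let τ : ℚ → GR ι t := fun k =>
    ⟨ev ι t (E k X), hτ k, E k X, E_mem k X, Eventually.of_forall fun _ => rfl⟩
  refine ⟨1 - τ 0 + τ 1, 1 - τ 0 - τ 1, fun p => ?_, fun θ hθ => ?_⟩
  · change val p (1 - ev ι t (E 0 X) p + ev ι t (E 1 X) p)
      = val p (1 - ev ι t (E 0 X) p - ev ι t (E 1 X) p)
    rcases lt_or_ge (ι p) 1 with h | h
    · simp [ev, E_lt _ h]
    · have h' : 0 < ι p := lt_of_lt_of_le one_pos h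
      simp [ev, E_gt _ h']
  · obtain ⟨-, fu, hfu, hu⟩ := (θ 1).2
    obtain ⟨-, fw, hfw, hw⟩ := (θ.symm 1).2
    have h1 : fu * fw = 1 := by
      apply eq_of_ae hgen
      filter_upwards [hu, hw] with p h1 h2
      have := end_mul ι t θ.toAddMonoidHom (θ.symm 1) p
      simp only [AddEquiv.toAddMonoidHom_eq_coe, AddMonoidHom.coe_coe,
        AddEquiv.apply_symm_apply] at this
      rw [ev_mul, ← h1, ← h2, ← this]
      simp [ev]
    have h2 : fu * (1 - E 0 X + E 1 X) = 1 - E 0 X - E 1 X := by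
      apply eq_of_ae hgen
      filter_upwards [hu] with p h1
      have := end_mul ι t θ.toAddMonoidHom (1 - τ 0 + τ 1) p
      simp only [AddEquiv.toAddMonoidHom_eq_coe, AddMonoidHom.coe_coe, hθ] at this
      rw [ev_mul, ← h1, ev_add, ev_sub, ev_sub, ev_sub]
      have h3 : ev ι t 1 p = 1 := by simp [ev]
      rw [h3]
      exact this.symm
    have h3 := unit_const hfu (fun i => IsUnit.of_mul_eq_one (fw i) (congrFun h1 i)) (-1) 2
      (by norm_num)
    have h4 := congrFun h2 (-1)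
    have h5 := congrFun h2 2
    simp only [Pi.mul_apply, Pi.add_apply, Pi.sub_apply, Pi.one_apply] at h4 h5
    rw [E_lt _ (by norm_num : (-1 : ℚ) < 0), E_lt _ (by norm_num : (-1 : ℚ) < 1)] at h4
    rw [E_gt _ (by norm_num : (0 : ℚ) < 2), E_gt _ (by norm_num : (1 : ℚ) < 2)] at h5
    have h6 : fu (-1) = 1 := by simpa using h4
    have h7 : fu 2 = -1 := by simpa using h5
    rw [h6, h7] at h3
    have := congrArg (eval 0) h3
    norm_num at this

end

lemma div_of_le_height {G : Type} [AddCommGroup G] (x : G) (p : Nat.Primes) (k : ℕ)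
    (h : (k : ℕ∞) ≤ ⨆ (n : ℕ) (_ : ∃ y : G, x = p.1 ^ n • y), (n : ℕ∞)) :
    ∃ y : G, x = p.1 ^ k • y := by
  by_contra hcon
  rcases k with _ | k
  · exact hcon ⟨x, by simp⟩
  have h1 : (⨆ (n : ℕ) (_ : ∃ y : G, x = p.1 ^ n • y), (n : ℕ∞)) ≤ (k : ℕ∞) := by
    refine iSup₂_le fun n hn => ?_
    obtain ⟨y, hy⟩ := hn
    by_contra hlt
    have h2 : k + 1 ≤ n := by
      push Not at hlt
      exact_mod_cast hlt
    obtain ⟨j, rfl⟩ := Nat.exists_eq_add_of_le h2
    exact hcon ⟨p.1 ^ j • y, by rw [hy, pow_add, mul_smul]⟩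
  have h3 : k + 1 ≤ k := by exact_mod_cast h.trans h1
  omega

/-- The main theorem, with heights expressed through divisibility. -/
theorem main : ∃ (G : Type) (_ : AddCommGroup G), IsAddTorsionFree G ∧
    (∀ x : G, (∀ n : ℕ, n ≠ 0 → ∃ y, x = n • y) → x = 0) ∧
    (∀ x y : G × G, (∀ (p : Nat.Primes) (k : ℕ), (∃ z, x = p.1 ^ k • z) → ∃ z, y = p.1 ^ k • z) →
      ∃ φ : G × G →+ G × G, φ x = y) ∧
    ∃ x y : G, (∀ (p : Nat.Primes) (k : ℕ), (∃ z, x = p.1 ^ k • z) ↔ ∃ z, y = p.1 ^ k • z) ∧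
      ∀ θ : G ≃+ G, θ x ≠ y := by
  obtain ⟨ι, t, hgen⟩ := exists_generic
  refine ⟨GR ι t, inferInstance, ⟨fun n hn x y hxy => ?_⟩, ?_, ?_, ?_⟩
  · ext p
    have h1 : (n : ℚ) * x.1 p = (n : ℚ) * y.1 p := by
      simpa using congrFun (congrArg Subtype.val hxy) p
    exact mul_left_cancel₀ (by exact_mod_cast hn) h1
  · intro x hx
    ext p
    change x.1 p = 0
    rw [← (val p).zero_iff]
    exact eq_zero_of_forall fun k => (div_iff ι t x p k).1 (hx _ (pow_ne_zero _ p.2.ne_zero))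
  · rintro ⟨a, b⟩ ⟨c, d⟩ h
    have h' : ∀ (p : Nat.Primes) (k : ℕ), max (val p (a.1 p)) (val p (b.1 p)) ≤ exp (-(k : ℤ)) →
        val p (c.1 p) ≤ exp (-(k : ℤ)) ∧ val p (d.1 p) ≤ exp (-(k : ℤ)) := by
      intro p k hk
      obtain ⟨a', ha'⟩ := (div_iff ι t a p k).2 (le_trans (le_max_left _ _) hk)
      obtain ⟨b', hb'⟩ := (div_iff ι t b p k).2 (le_trans (le_max_right _ _) hk)
      obtain ⟨z, hz⟩ := h p k ⟨(a', b'), Prod.ext ha' hb'⟩
      exact ⟨(div_iff ι t c p k).1 ⟨z.1, congrArg Prod.fst hz⟩,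
        (div_iff ι t d p k).1 ⟨z.2, congrArg Prod.snd hz⟩⟩
    obtain ⟨l, m, hc⟩ := comb hgen a b c fun p =>
      le_of_forall (max_le (a.2.1 p) (b.2.1 p)) fun k hk => (h' p k hk).1
    obtain ⟨l', m', hd⟩ := comb hgen a b d fun p =>
      le_of_forall (max_le (a.2.1 p) (b.2.1 p)) fun k hk => (h' p k hk).2
    refine ⟨AddMonoidHom.mk' (fun z => (l * z.1 + m * z.2, l' * z.1 + m' * z.2)) ?_, ?_⟩
    · intro u v
      ext : 1
      · simp only [Prod.fst_add, Prod.snd_add]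
        ring
      · simp only [Prod.fst_add, Prod.snd_add]
        ring
    · exact Prod.ext hc.symm hd.symm
  · obtain ⟨x, y, hxy, hθ⟩ := not_assoc hgen
    exact ⟨x, y, fun p k => by rw [div_iff, div_iff, hxy], hθ⟩

end Pool.Agent.P.MP_b84a00_al
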