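import Mathlib

/-!
Generic assignment of an index and an integer to every prime.
-/

open Polynomial Filter WithZero

namespace Pool.Agent.P.MP_b84a00_al

/-- The `p`-adic valuation on the rationals, for a bundled prime. -/
noncomputable def val (p : Nat.Primes) : Valuation ℚ (WithZero (Multiplicative ℤ)) :=
  @Rat.padicValuation p.1 ⟨p.2⟩

lemma val_int_le (p : Nat.Primes) (z : ℤ) : val p (z : ℚ) ≤ 1 :=
  @Int.padicValuation_le_one p.1 ⟨p.2⟩ z

lemma val_int_lt (p : Nat.Primes) (z : ℤ) : val p (z : ℚ) < 1 ↔ (p.1 : ℤ) ∣ z :=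
  @Int.padicValuation_lt_one_iff p.1 ⟨p.2⟩ z

lemma val_int_eq (p : Nat.Primes) (z : ℤ) : val p (z : ℚ) = 1 ↔ ¬ (p.1 : ℤ) ∣ z :=
  @Int.padicValuation_eq_one_iff p.1 ⟨p.2⟩ z

lemma val_self (p : Nat.Primes) : val p (p.1 : ℚ) = exp (-1) :=
  @Rat.padicValuation_self p.1 ⟨p.2⟩

lemma val_le_one_iff (p : Nat.Primes) (x : ℚ) : val p x ≤ 1 ↔ ¬ p.1 ∣ x.den :=
  @Rat.padicValuation_le_one_iff p.1 ⟨p.2⟩ x

lemma val_other (p q : Nat.Primes) (h : q ≠ p) : val q (p.1 : ℚ) = 1 := by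
  have := (val_int_eq q (p.1 : ℤ)).2 (by
    intro hd
    have hd' : q.1 ∣ p.1 := by exact_mod_cast hd
    exact h (Subtype.ext ((Nat.prime_dvd_prime_iff_eq q.2 p.2).1 hd')))
  simpa using this

lemma val_pow_self (p : Nat.Primes) (k : ℕ) : val p ((p.1 : ℚ) ^ k) = exp (-(k : ℤ)) := by
  rw [map_pow, val_self, ← exp_nsmul]
  simp

lemma finite_dvd (n : ℕ) (hn : n ≠ 0) : {p : Nat.Primes | p.1 ∣ n}.Finite := by
  have h : {p : Nat.Primes | p.1 ∣ n} ⊆ Subtype.val ⁻¹' (Set.Iic n) := by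
    intro p hp
    exact Nat.le_of_dvd (Nat.pos_of_ne_zero hn) hp
  exact ((Set.finite_Iic n).preimage Subtype.val_injective.injOn).subset h

lemma ae_val_le_one (x : ℚ) : ∀ᶠ p in cofinite, val p x ≤ 1 := by
  rw [eventually_cofinite]
  refine (finite_dvd x.den x.den_ne_zero).subset ?_
  intro p hp
  simpa [val_le_one_iff] using hp

lemma ae_val_eval_le_one (g : ℚ[X]) :
    ∀ᶠ p in cofinite, ∀ t : ℤ, val p (g.eval (t : ℚ)) ≤ 1 := by
  induction g using Polynomial.induction_on' with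
  | add f g hf hg =>
    filter_upwards [hf, hg] with p h1 h2 t
    rw [eval_add]
    exact (val p).map_add_le (h1 t) (h2 t)
  | monomial n a =>
    filter_upwards [ae_val_le_one a] with p h1 t
    rw [eval_monomial, map_mul, map_pow]
    exact mul_le_one' h1 (pow_le_one' (val_int_le p t) n)

lemma exists_int_not_root (D : ℚ[X]) (hD : D ≠ 0) (t₀ m : ℤ) (hm : m ≠ 0) :
    ∃ s : ℤ, D.eval (((t₀ + m * s : ℤ)) : ℚ) ≠ 0 := by
  by_contra hcon
  push Not at hcon
  apply hD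
  apply Polynomial.eq_zero_of_infinite_isRoot
  have hinj : Function.Injective (fun s : ℤ => (((t₀ + m * s : ℤ)) : ℚ)) := by
    intro a b hab
    have : t₀ + m * a = t₀ + m * b := Int.cast_injective (α := ℚ) hab
    exact mul_left_cancel₀ hm (add_left_cancel this)
  exact Set.infinite_of_injective_forall_mem hinj (fun s => hcon s)

/-- Schur's theorem on prime divisors of values of a polynomial. -/
lemma schur (h d : ℚ[X]) (hh : ¬ IsUnit h) (hd : d ≠ 0) (N : ℕ) :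
    ∃ p : Nat.Primes, N ≤ p.1 ∧ ∃ t : ℤ, val p (h.eval (t : ℚ)) < 1 ∧ d.eval (t : ℚ) ≠ 0 := by
  by_cases h0 : h = 0
  · obtain ⟨p, hp, hpp⟩ := Nat.exists_infinite_primes N
    obtain ⟨s, hs⟩ := exists_int_not_root d hd 0 1 one_ne_zero
    exact ⟨⟨p, hpp⟩, hp, _, by simp [h0], hs⟩
  obtain ⟨c, hc, hH⟩ := IsLocalization.integerNormalization_spec (nonZeroDivisors ℤ) h
  set H : ℤ[X] := IsLocalization.integerNormalization (nonZeroDivisors ℤ) h with hHdef
  have hc0 : c ≠ 0 := nonZeroDivisors.ne_zero hc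
  have hev : ∀ t : ℤ, ((H.eval t : ℤ) : ℚ) = c * h.eval (t : ℚ) := by
    intro t
    have h1 : (H.map (algebraMap ℤ ℚ)).eval (t : ℚ) = ((H.eval t : ℤ) : ℚ) := by
      have := Polynomial.eval_map_algebraMap (B := ℚ) H (t : ℚ)
      rw [this]
      have h2 := Polynomial.aeval_algebraMap_apply_eq_algebraMap_eval (A := ℚ) t H
      simpa using h2
    rw [← h1, hH]
    simp
  obtain ⟨s₀, hs₀⟩ := exists_int_not_root h h0 0 1 one_ne_zero
  set t₀ : ℤ := 0 + 1 * s₀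
  set a : ℤ := H.eval t₀ with ha
  have ha0 : a ≠ 0 := by
    intro h1
    have := hev t₀
    rw [← ha, h1] at this
    have hcq : (c : ℚ) ≠ 0 := by exact_mod_cast hc0
    exact (mul_ne_zero hcq hs₀) (by simpa using this.symm)
  have hdeg : h.natDegree ≠ 0 := by
    intro h1
    apply hh
    rw [Polynomial.eq_C_of_natDegree_eq_zero h1]
    refine isUnit_C.2 (IsUnit.mk0 _ ?_)
    intro h2
    apply h0
    rw [Polynomial.eq_C_of_natDegree_eq_zero h1, h2, map_zero]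
  have hcq : (c : ℚ) ≠ 0 := by exact_mod_cast hc0
  have hne : ∀ e : ℚ, C (c : ℚ) * h - C e ≠ 0 := by
    intro e h1
    have h2 : C (c : ℚ) * h = C e := sub_eq_zero.1 h1
    have h3 := congrArg natDegree h2
    rw [natDegree_C_mul hcq, natDegree_C] at h3
    exact hdeg h3
  set M : ℤ := (N.factorial : ℤ) * c with hM
  have hM0 : M ≠ 0 := mul_ne_zero (by exact_mod_cast N.factorial_ne_zero) hc0
  obtain ⟨s, hs⟩ := exists_int_not_root
    (d * ((C (c : ℚ) * h - C (a : ℚ)) * (C (c : ℚ) * h - C (-a : ℚ))))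
    (mul_ne_zero hd (mul_ne_zero (hne _) (hne _))) t₀ (a * M) (mul_ne_zero ha0 hM0)
  set t : ℤ := t₀ + a * M * s with ht
  simp only [eval_mul, eval_sub, eval_C, mul_ne_zero_iff, ← hev] at hs
  obtain ⟨hs1, hs2, hs3⟩ := hs
  obtain ⟨u, hu⟩ : a * M * s ∣ H.eval t - a := by
    have := Polynomial.sub_dvd_eval_sub t t₀ H
    rwa [ht, add_sub_cancel_left] at this
  have hval : H.eval t = a * (1 + M * (s * u)) := by linear_combination hu
  have hw : (1 + M * (s * u)).natAbs ≠ 1 := by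
    intro h1
    rcases Int.natAbs_eq_iff.1 h1 with h2 | h2
    · apply hs2
      rw [hval, h2]; simp
    · apply hs3
      rw [hval, h2]; simp
  obtain ⟨q, hq, hqd⟩ := Int.exists_prime_and_dvd hw
  have hqp : q.natAbs.Prime := Int.prime_iff_natAbs_prime.1 hq
  have hqM : ¬ (q.natAbs : ℤ) ∣ M := by
    intro h1
    have h2 : q ∣ M := Int.natAbs_dvd.1 h1
    have h3 : q ∣ 1 := by
      have := dvd_sub hqd (h2.mul_right (s * u))
      simpa using this
    exact hq.not_dvd_one h3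
  refine ⟨⟨q.natAbs, hqp⟩, ?_, t, ?_, hs1⟩
  · by_contra hlt
    push Not at hlt
    apply hqM
    have : q.natAbs ∣ N.factorial := hqp.dvd_factorial.2 hlt.le
    exact Dvd.dvd.mul_right (by exact_mod_cast this) c
  · have h1 : val ⟨q.natAbs, hqp⟩ (c : ℚ) = 1 :=
      (val_int_eq _ c).2 (fun h2 => hqM (Dvd.dvd.mul_left h2 _))
    have h2 : val ⟨q.natAbs, hqp⟩ ((H.eval t : ℤ) : ℚ) < 1 := by
      refine (val_int_lt _ _).2 ?_
      rw [hval]
      exact Dvd.dvd.mul_left (Int.natAbs_dvd.2 hqd) _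
    rwa [hev, map_mul, h1, one_mul] at h2

/-- A generic assignment. -/
theorem exists_generic : ∃ (ι : Nat.Primes → ℚ) (t : Nat.Primes → ℤ),
    ∀ (i : ℚ) (h d : ℚ[X]), ¬ IsUnit h → d ≠ 0 →
      ∃ᶠ p in cofinite, ι p = i ∧ val p (h.eval (t p : ℚ)) < 1 ∧ d.eval (t p : ℚ) ≠ 0 := by
  classical
  have : Countable (AddMonoidAlgebra ℚ ℕ) := AddMonoidAlgebra.coeff_injective.countable
  have : Countable ℚ[X] := Polynomial.toFinsupp_injective.countable
  obtain ⟨e, he⟩ := exists_surjective_nat ((ℚ × ℚ[X] × ℚ[X]) × ℕ)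
  let P : ℕ → ℕ → Prop := fun m k => ∃ hk : k.Prime, (e m).2 ≤ k ∧ ∃ t : ℤ,
    ¬ IsUnit (e m).1.2.1 → (e m).1.2.2 ≠ 0 →
      val ⟨k, hk⟩ ((e m).1.2.1.eval (t : ℚ)) < 1 ∧ (e m).1.2.2.eval (t : ℚ) ≠ 0
  have hP : ∀ m, ∃ᶠ k in atTop, P m k := by
    intro m
    rw [frequently_atTop]
    intro N
    by_cases hc : ¬ IsUnit (e m).1.2.1 ∧ (e m).1.2.2 ≠ 0
    · obtain ⟨p, hp, t, ht⟩ := schur _ _ hc.1 hc.2 (max N (e m).2)
      exact ⟨p.1, le_trans (le_max_left _ _) hp, p.2, le_trans (le_max_right _ _) hp, t,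
        fun _ _ => ht⟩
    · obtain ⟨p, hp, hpp⟩ := Nat.exists_infinite_primes (max N (e m).2)
      exact ⟨p, le_trans (le_max_left _ _) hp, hpp, le_trans (le_max_right _ _) hp, 0,
        fun h1 h2 => absurd ⟨h1, h2⟩ hc⟩
  obtain ⟨φ, hφ, hφP⟩ := extraction_forall_of_frequently hP
  choose hk hN t ht using hφP
  let ψ : ℕ → Nat.Primes := fun m => ⟨φ m, hk m⟩
  have hψ : Function.Injective ψ := fun a b hab => hφ.injective (congrArg Subtype.val hab)
  refine ⟨Function.extend ψ (fun m => (e m).1.1) 0, Function.extend ψ t 0, ?_⟩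
  intro i h d hh hd
  rw [frequently_cofinite_iff_infinite]
  intro hfin
  obtain ⟨B, hB⟩ := (hfin.image Subtype.val).bddAbove
  obtain ⟨m, hm⟩ := he ((i, h, d), B + 1)
  have h1 := ht m
  have h2 := hN m
  rw [hm] at h2
  have hmem : ψ m ∈ {p : Nat.Primes | Function.extend ψ (fun m => (e m).1.1) 0 p = i ∧
      val p (h.eval ((Function.extend ψ t 0 p : ℤ) : ℚ)) < 1 ∧
      d.eval ((Function.extend ψ t 0 p : ℤ) : ℚ) ≠ 0} := by
    simp only [Set.mem_ofPred_eq, hψ.extend_apply]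
    simp only [hm] at h1 ⊢
    exact ⟨trivial, h1 hh hd⟩
  have h3 : φ m ≤ B := hB ⟨ψ m, hmem, rfl⟩
  simp only at h2
  omega

end Pool.Agent.P.MP_b84a00_al
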